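import Pool.Agent.T9h44.NK.SpecA
import Pool.Agent.T9h44.NK.SpecB

/-!
# Project NK, piece M3: 2-faces with equal edges and equal angles
-/

set_option autoImplicit false

open Set
open scoped RealInnerProductSpace

namespace Pool.Agent.T9h52.NK

open Pool.Agent.T9h98.DC Pool.Agent.T9h44.NK

theorem two' (h2 : S_TWO) {d : ℕ} {P T : Set (E (d + 1))} {v y z : E (d + 1)} (hP : IsPolytope P)
    (hv : Vx P v) (hT : IsFace P T) (hd : dm T = 2) (hvT : v ∈ T) (hy : Adj P v y) (hz : Adj P v z)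
    (hyz : y ≠ z) (hyT : y ∈ T) (hzT : z ∈ T) :
    (∀ a b : ℝ, a • (y - v) + b • (z - v) = 0 → a = 0 ∧ b = 0) ∧
    (∀ x ∈ T, ∃ α β : ℝ, 0 ≤ α ∧ 0 ≤ β ∧ x - v = α • (y - v) + β • (z - v)) := by
  obtain ⟨y0, z0, hne, hy0, hz0, hy0T, hz0T, hli, hall, hcone, -, -⟩ := h2 d P T v hP hv hT hd hvT
  rw [LinearIndependent.pair_iff] at hli
  rcases hall y hy hyT with rfl | rfl
  · rcases hall z hz hzT with rfl | rfl
    · exact absurd rfl hyz
    · exact ⟨hli, hcone⟩
  · rcases hall z hz hzT with rfl | rfl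
    · refine ⟨fun a b hab => ?_, fun x hx => ?_⟩
      · have := hli b a ((add_comm _ _).trans hab)
        exact ⟨this.2, this.1⟩
      · obtain ⟨α, β, ha, hb, h⟩ := hcone x hx
        exact ⟨β, α, hb, ha, h.trans (add_comm _ _)⟩
    · exact absurd rfl hyz

theorem other (h2 : S_TWO) {d : ℕ} {P T : Set (E (d + 1))} {v y : E (d + 1)} (hP : IsPolytope P)
    (hy : Vx P y) (hT : IsFace P T) (hd : dm T = 2) (hvT : v ∈ T) (hyv : Adj P y v)
    (hyT : y ∈ T) : ∃ t, t ≠ v ∧ Adj P y t ∧ t ∈ T := by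
  obtain ⟨y0, z0, hne, hy0, hz0, hy0T, hz0T, -, hall, -, -, -⟩ := h2 d P T y hP hy hT hd hyT
  rcases hall v hyv hvT with rfl | rfl
  · exact ⟨z0, hne.symm, hz0, hz0T⟩
  · exact ⟨y0, hne, hy0, hy0T⟩

theorem next (hF : S_FACES) (h2 : S_TWO) {d : ℕ} {P T : Set (E (d + 1))} {s κ : ℝ}
    (hP : IsPolytope P) (hT : IsFace P T) (hd : dm T = 2) (hs : 0 < s)
    (he : ∀ a b, Adj P a b → a ∈ T → b ∈ T → dist a b = s)
    (ha : ∀ v y z, Adj P v y → Adj P v z → y ≠ z → v ∈ T → y ∈ T → z ∈ T →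
      ⟪y - v, z - v⟫ = κ * s ^ 2) {v y z : E (d + 1)}
    (hy : Adj P v y) (hz : Adj P v z) (hyz : y ≠ z) (hvT : v ∈ T) (hyT : y ∈ T) (hzT : z ∈ T) :
    Adj P y (v + (1 - 2 * κ) • (y - v) + (z - v)) ∧ (v + (1 - 2 * κ) • (y - v) + (z - v)) ∈ T ∧
      v + (1 - 2 * κ) • (y - v) + (z - v) ≠ v ∧ 0 ≤ 1 - 2 * κ := by
  have hFP := hF (d + 1) P hP.1
  obtain ⟨-, -, -, -, -, -, -, -, hadj, -⟩ := hFP
  obtain ⟨hVv, hVy, hyv, -⟩ := hadj v y hy
  obtain ⟨t, htv, hyt, htT⟩ := other h2 hP hVy hT hd hvT hyv hyT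
  obtain ⟨hli, hcone⟩ := two' h2 hP hVv hT hd hvT hy hz hyz hyT hzT
  obtain ⟨α, β, hα, hβ, hab⟩ := hcone t htT
  have hang := ha y v t hyv hyt htv.symm hyT hvT htT
  have hfg := ha v y z hy hz hyz hvT hyT hzT
  have hff : ⟪y - v, y - v⟫ = s ^ 2 := by
    rw [real_inner_self_eq_norm_sq, ← dist_eq_norm, dist_comm, he v y hy hvT hyT]
  have hgg : ⟪z - v, z - v⟫ = s ^ 2 := by
    rw [real_inner_self_eq_norm_sq, ← dist_eq_norm, dist_comm, he v z hz hvT hzT]
  have htt : ⟪t - y, t - y⟫ = s ^ 2 := by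
    rw [real_inner_self_eq_norm_sq, ← dist_eq_norm, dist_comm, he y t hyt hyT htT]
  set f := y - v with hf
  set g := z - v with hg
  have hty : t - y = (α - 1) • f + β • g := by
    have : t - y = (t - v) - f := by rw [hf]; abel
    rw [this, hab, sub_smul, one_smul]
    abel
  have hvy : v - y = -f := by rw [hf]; abel
  have hgf : ⟪g, f⟫ = κ * s ^ 2 := by rw [real_inner_comm]; exact hfg
  have hs2 : 0 < s ^ 2 := by positivity
  have e1 : -(α - 1) - β * κ = κ := by
    rw [hvy, hty, inner_neg_left, inner_add_right, inner_smul_right, inner_smul_right, hff, hfg]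
      at hang
    have : s ^ 2 * (-(α - 1) - β * κ) = s ^ 2 * κ := by linarith
    exact mul_left_cancel₀ hs2.ne' this
  have e2 : (α - 1) ^ 2 + β ^ 2 + 2 * (α - 1) * β * κ = 1 := by
    rw [hty, inner_add_left, inner_add_right, inner_add_right] at htt
    simp only [real_inner_smul_left, real_inner_smul_right, hff, hfg, hgf, hgg] at htt
    have : s ^ 2 * ((α - 1) ^ 2 + β ^ 2 + 2 * (α - 1) * β * κ) = s ^ 2 * 1 := by linarith
    exact mul_left_cancel₀ hs2.ne' this
  have hk : 0 < 1 - κ ^ 2 := by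
    have hne : f + (-κ) • g ≠ 0 := by
      intro h0
      have := (hli 1 (-κ) (by rw [one_smul]; exact h0)).1
      exact one_ne_zero this
    have hpos : 0 < ⟪f + (-κ) • g, f + (-κ) • g⟫ := by
      rw [real_inner_self_eq_norm_sq]
      have := norm_pos_iff.2 hne
      positivity
    rw [inner_add_left, inner_add_right, inner_add_right] at hpos
    simp only [real_inner_smul_left, real_inner_smul_right, hff, hfg, hgf, hgg] at hpos
    have h3 : 0 < s ^ 2 * (1 - κ ^ 2) := by nlinarith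
    exact (mul_pos_iff_of_pos_left hs2).1 h3
  have hb2 : (β ^ 2 - 1) * (1 - κ ^ 2) = 0 := by
    have h4 : α - 1 = -κ * (1 + β) := by linarith
    rw [h4] at e2
    nlinarith
  have hb1 : β = 1 := by
    rcases mul_eq_zero.1 hb2 with h | h
    · nlinarith
    · exact absurd h hk.ne'
  have ha1 : α = 1 - 2 * κ := by
    rw [hb1] at e1
    linarith
  have ht : v + (1 - 2 * κ) • f + g = t := by
    rw [ha1, hb1, one_smul] at hab
    have : t = v + (t - v) := by abel
    rw [this, hab]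
    abel
  rw [ht]
  exact ⟨hyt, htT, htv, by rw [← ha1]; exact hα⟩

theorem m3 (hF : S_FACES) (h2 : S_TWO) : S_M3 := by
  intro d P T s κ hP hT hd hs he ha v y z hy hz hyz hvT hyT hzT
  obtain ⟨-, -, -, -, -, -, -, -, hadj, -⟩ := hF (d + 1) P hP.1
  obtain ⟨hVv, hVy, hyv, -⟩ := hadj v y hy
  obtain ⟨-, hVz, hzv, -⟩ := hadj v z hz
  obtain ⟨hyt, htT, htv, hq⟩ := next hF h2 hP hT hd hs he ha hy hz hyz hvT hyT hzT
  obtain ⟨hzt', ht'T, ht'v, -⟩ := next hF h2 hP hT hd hs he ha hz hy hyz.symm hvT hzT hyT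
  -- the neighbour of `t`
  obtain ⟨-, ht2T, -, -⟩ := next hF h2 hP hT hd hs he ha hyt hyv htv hyT htT hvT
  -- independence at `v` and the cone at `z`
  obtain ⟨hli, -⟩ := two' h2 hP hVv hT hd hvT hy hz hyz hyT hzT
  obtain ⟨-, hcone⟩ := two' h2 hP hVz hT hd hzT hzv hzt' ht'v.symm hvT ht'T
  set f := y - v with hf
  set g := z - v with hg
  have hyf : y = v + f := by rw [hf]; abel
  have hzg : z = v + g := by rw [hg]; abel
  -- the cone at `z` for `t`
  have c1 : 0 ≤ (1 - 2 * κ) * (-2 * κ) := by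
    obtain ⟨a, b, ha0, hb0, hab⟩ := hcone _ htT
    rw [hzg] at hab
    have h0 : (1 - 2 * κ - b) • f + (a - b * (-2 * κ)) • g = 0 := by
      have : (1 - 2 * κ - b) • f + (a - b * (-2 * κ)) • g =
          (v + (1 - 2 * κ) • f + g - (v + g)) -
            (a • (v - (v + g)) + b • (v + (1 - 2 * κ) • g + f - (v + g))) := by
        module
      rw [this, hab]
      abel
    obtain ⟨h1, h3⟩ := hli _ _ h0
    have hb' : b = 1 - 2 * κ := by linarith
    have ha' : a = b * (-2 * κ) := by linarith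
    rw [← hb', ← ha']
    exact ha0
  -- the cone at `z` for `t₂`
  have c2 : 0 ≤ (-2 * κ) * ((-2 * κ) ^ 2 + (-2 * κ) - 1) := by
    obtain ⟨a, b, ha0, hb0, hab⟩ := hcone _ ht2T
    rw [hzg, hyf] at hab
    set q : ℝ := -2 * κ with hqd
    have hq1 : 1 - 2 * κ = 1 + q := by rw [hqd]; ring
    rw [hq1] at hab
    have h0 : (q + q ^ 2 - b) • f + (q + a - b * q) • g = 0 := by
      have : (q + q ^ 2 - b) • f + (q + a - b * q) • g =
          (v + f + (1 + q) • (v + (1 + q) • f + g - (v + f)) + (v - (v + f)) - (v + g)) -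
            (a • (v - (v + g)) + b • (v + (1 + q) • g + f - (v + g))) := by
        module
      rw [this, hab]
      abel
    obtain ⟨h1, h3⟩ := hli _ _ h0
    have hb' : b = q + q ^ 2 := by linarith
    have ha' : a = q * (q ^ 2 + q - 1) := by
      have : a = b * q - q := by linarith
      rw [this, hb']
      ring
    rw [← ha']
    exact ha0
  rcases lt_trichotomy κ 0 with hk | hk | hk
  · right; right
    by_contra hcon
    push Not at hcon
    nlinarith
  · right; left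
    refine ⟨hk, ?_, ?_⟩
    · have : y + z - v = v + (1 - 2 * κ) • f + g := by
        rw [hk, hyf, hzg]
        module
      rw [this]
      exact hyt
    · have : y + z - v = v + (1 - 2 * κ) • f + g := by
        rw [hk, hyf, hzg]
        module
      rw [this]
      exact htT
  · left
    have hk2 : κ = 1 / 2 := by
      by_contra hne
      have h5 : 0 < 1 - 2 * κ := lt_of_le_of_ne hq fun h => hne (by linarith)
      nlinarith
    refine ⟨hk2, ?_⟩
    have : z = v + (1 - 2 * κ) • f + g := by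
      rw [hk2, hzg]
      module
    rw [this]
    exact hyt

end Pool.Agent.T9h52.NK
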