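import Pool.Agent.T9h44.NK.SpecC
import Pool.Agent.T9h73.NK.FF

/-!
# Project NK, piece FTO: the cross-polytope is flag-transitive
-/

set_option autoImplicit false

open Set
open scoped RealInnerProductSpace

namespace Pool.Agent.T9h52.NK

open Pool.Agent.T9h98.DC Pool.Agent.T9h44.NK

/-- the vertices of the cross-polytope -/
def VS {d : ℕ} (c : E d) (r : ℝ) (b : OrthonormalBasis (Fin d) ℝ (E d)) : Set (E d) :=
  {x | ∃ i, x = c + r • b i ∨ x = c - r • b i}

theorem VS_finite {d : ℕ} (c : E d) (r : ℝ) (b : OrthonormalBasis (Fin d) ℝ (E d)) :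
    (VS c r b).Finite := by
  have : VS c r b ⊆ (range fun i => c + r • b i) ∪ (range fun i => c - r • b i) := by
    rintro x ⟨i, rfl | rfl⟩
    · exact Or.inl ⟨i, rfl⟩
    · exact Or.inr ⟨i, rfl⟩
  exact ((finite_range _).union (finite_range _)).subset this

theorem affInd {d : ℕ} (c : E d) {r : ℝ} (hr : 0 < r) (b : OrthonormalBasis (Fin d) ℝ (E d)) :
    AffineIndependent ℝ (fun i => c + r • b i) := by
  rw [affineIndependent_iff]
  intro s w h0 h1 e he
  have h2 : ∑ i ∈ s, w i • (r • b i) = 0 := by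
    have : ∑ i ∈ s, w i • (c + r • b i) = (∑ i ∈ s, w i) • c + ∑ i ∈ s, w i • (r • b i) := by
      rw [Finset.sum_smul, ← Finset.sum_add_distrib]
      exact Finset.sum_congr rfl fun i _ => smul_add _ _ _
    rw [this, h0, zero_smul, zero_add] at h1
    exact h1
  have h3 : ∑ i ∈ s, (w i * r) • b i = 0 := by
    rw [← h2]
    exact Finset.sum_congr rfl fun i _ => by rw [smul_smul]
  have h4 := linearIndependent_iff'.1 b.toBasis.linearIndependent s (fun i => w i * r)
    (by simpa using h3) e he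
  rcases mul_eq_zero.1 h4 with h | h
  · exact h
  · exact absurd h hr.ne'

theorem dm_hull {d : ℕ} (S : Set (E d)) : dm (convexHull ℝ S) = Module.finrank ℝ (vectorSpan ℝ S) := by
  have : vectorSpan ℝ (convexHull ℝ S) = vectorSpan ℝ S := by
    rw [← direction_affineSpan, affineSpan_convexHull, direction_affineSpan]
  unfold dm
  rw [this]

theorem dm_simplex {d : ℕ} (c : E d) {r : ℝ} (hr : 0 < r) (b : OrthonormalBasis (Fin d) ℝ (E d))
    (I : Finset (Fin d)) (hI : I.Nonempty) :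
    dm (convexHull ℝ ((fun i => c + r • b i) '' (I : Set (Fin d)))) + 1 = I.card := by
  classical
  obtain ⟨n, hn⟩ : ∃ n, I.card = n + 1 := ⟨I.card - 1, by have := hI.card_pos; omega⟩
  have h := (affInd c hr b).finrank_vectorSpan_image_finset hn
  rw [dm_hull]
  rw [Finset.coe_image] at h
  rw [h, hn]

/-- the basis with signs -/
theorem sgnBasis {d : ℕ} (b : OrthonormalBasis (Fin d) ℝ (E d)) (A : Set (Fin d)) :
    ∃ b1 : OrthonormalBasis (Fin d) ℝ (E d), ∀ i, (i ∈ A → b1 i = b i) ∧ (i ∉ A → b1 i = -b i) := by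
  classical
  let v : Fin d → E d := fun i => if i ∈ A then b i else -b i
  have hon : Orthonormal ℝ v := by
    rw [orthonormal_iff_ite]
    intro i j
    have hb := (orthonormal_iff_ite.1 b.orthonormal) i j
    by_cases hij : i = j
    · subst hij
      simp only [v]
      split_ifs <;> simp
    · rw [if_neg hij] at hb ⊢
      simp only [v]
      split_ifs <;> simp [hb]
  have hsp : ⊤ ≤ Submodule.span ℝ (range v) := by
    rw [hon.linearIndependent.span_eq_top_of_card_eq_finrank' (by simp)]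
  refine ⟨OrthonormalBasis.mk hon hsp, fun i => ⟨fun h => ?_, fun h => ?_⟩⟩
  · rw [OrthonormalBasis.coe_mk]
    simp [v, h]
  · rw [OrthonormalBasis.coe_mk]
    simp [v, h]

theorem VS_sgn {d : ℕ} (c : E d) (r : ℝ) (b b1 : OrthonormalBasis (Fin d) ℝ (E d)) (A : Set (Fin d))
    (h : ∀ i, (i ∈ A → b1 i = b i) ∧ (i ∉ A → b1 i = -b i)) : VS c r b1 = VS c r b := by
  ext x
  constructor
  · rintro ⟨i, hi⟩
    refine ⟨i, ?_⟩
    by_cases hA : i ∈ A
    · rw [(h i).1 hA] at hi
      exact hi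
    · rw [(h i).2 hA, smul_neg, sub_neg_eq_add, ← sub_eq_add_neg] at hi
      exact hi.symm
  · rintro ⟨i, hi⟩
    refine ⟨i, ?_⟩
    by_cases hA : i ∈ A
    · rw [(h i).1 hA]
      exact hi
    · rw [(h i).2 hA, smul_neg, sub_neg_eq_add, ← sub_eq_add_neg]
      exact hi.symm

theorem top_one {d : ℕ} {c : E d} {r : ℝ} (hr : 0 < r) {b : OrthonormalBasis (Fin d) ℝ (E d)}
    {P F : Set (E d)} (hP : P = convexHull ℝ (VS c r b)) (hF : IsFace P F) (hd : dm F < d)
    (i : Fin d) (h1 : c + r • b i ∈ F) (h2 : c - r • b i ∈ F) : False := by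
  obtain ⟨hne, hex⟩ := hF
  obtain ⟨l, hl⟩ := hex hne
  have hVP : VS c r b ⊆ P := by rw [hP]; exact subset_convexHull ℝ _
  have hp : ∀ k, c + r • b k ∈ P := fun k => hVP ⟨k, Or.inl rfl⟩
  have hm : ∀ k, c - r • b k ∈ P := fun k => hVP ⟨k, Or.inr rfl⟩
  rw [hl] at h1 h2
  have e1 := h1.2 _ (hm i)
  have e2 := h2.2 _ (hp i)
  simp only [map_add, map_sub, map_smul, smul_eq_mul] at e1 e2
  have hri : r * l (b i) = 0 := by linarith
  have hall : ∀ k, r * l (b k) = 0 := by
    intro k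
    have e3 := h1.2 _ (hp k)
    have e4 := h1.2 _ (hm k)
    simp only [map_add, map_sub, map_smul, smul_eq_mul] at e3 e4
    linarith
  have hmem : ∀ k, c + r • b k ∈ F ∧ c - r • b k ∈ F := by
    intro k
    rw [hl]
    refine ⟨⟨hp k, fun y hy => ?_⟩, ⟨hm k, fun y hy => ?_⟩⟩
    · have e5 := h1.2 y hy
      simp only [map_add, map_smul, smul_eq_mul, hall] at e5 ⊢
      exact e5
    · have e5 := h1.2 y hy
      simp only [map_add, map_sub, map_smul, smul_eq_mul, hall] at e5 ⊢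
      linarith
  have htop : vectorSpan ℝ F = ⊤ := by
    rw [eq_top_iff, ← b.toBasis.span_eq, Submodule.span_le]
    rintro x ⟨k, rfl⟩
    have h3 := vsub_mem_vectorSpan ℝ (hmem k).1 (hmem k).2
    have h4 : (c + r • b k) -ᵥ (c - r • b k) = (2 * r) • b k := by
      rw [vsub_eq_sub]
      module
    rw [h4] at h3
    have h5 := (vectorSpan ℝ F).smul_mem (2 * r)⁻¹ h3
    rw [smul_smul, inv_mul_cancel₀ (by positivity), one_smul] at h5
    simpa using h5
  have h6 : dm F = d := by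
    unfold dm
    rw [htop, finrank_top, finrank_euclideanSpace_fin]
  omega

theorem flagO {d : ℕ} {c : E d} {r : ℝ} (hr : 0 < r) {b : OrthonormalBasis (Fin d) ℝ (E d)}
    {P : Set (E d)} (hP : P = convexHull ℝ (VS c r b)) (Φ : Flag P) (h0 : 0 < d) :
    ∃ b1 : OrthonormalBasis (Fin d) ℝ (E d), VS c r b1 = VS c r b ∧
      ∃ I : Fin d → Finset (Fin d), Monotone I ∧ (∀ i, (I i).card = i + 1) ∧
        ∀ i, Φ.face i = convexHull ℝ ((fun j => c + r • b1 j) '' (I i : Set (Fin d))) := by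
  classical
  let last : Fin d := ⟨d - 1, by omega⟩
  have hlast : ∀ i : Fin d, i ≤ last := fun i => by
    rw [Fin.le_def]
    have := i.2
    change (i : ℕ) ≤ d - 1
    omega
  obtain ⟨b1, hb1⟩ := sgnBasis b {j | c + r • b j ∈ Φ.face last}
  have hVS := VS_sgn c r b b1 _ hb1
  have htop : ∀ i, c + r • b i ∈ Φ.face last → c - r • b i ∈ Φ.face last → False := by
    intro i
    refine top_one hr hP (Φ.isFace last) ?_ i
    have := Φ.dim last
    change Module.finrank ℝ (vectorSpan ℝ (Φ.face last)) < d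
    rw [this]
    exact last.2
  have hrep : ∀ v ∈ VS c r b, v ∈ Φ.face last → ∃ j, v = c + r • b1 j := by
    rintro v ⟨j, rfl | rfl⟩ hv
    · exact ⟨j, by rw [(hb1 j).1 hv]⟩
    · refine ⟨j, ?_⟩
      rw [(hb1 j).2 fun h => htop j h hv, smul_neg, ← sub_eq_add_neg]
  let I : Fin d → Finset (Fin d) := fun i => Finset.univ.filter fun j => c + r • b1 j ∈ Φ.face i
  have hI : ∀ i, VS c r b ∩ Φ.face i = (fun j => c + r • b1 j) '' (I i : Set (Fin d)) := by
    intro i
    ext v
    constructor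
    · rintro ⟨hv, hvF⟩
      obtain ⟨j, rfl⟩ := hrep v hv (Φ.mono (hlast i) hvF)
      exact ⟨j, by simpa [I] using hvF, rfl⟩
    · rintro ⟨j, hj, rfl⟩
      refine ⟨?_, by simpa [I] using hj⟩
      rw [← hVS]
      exact ⟨j, Or.inl rfl⟩
  have hface : ∀ i, Φ.face i = convexHull ℝ ((fun j => c + r • b1 j) '' (I i : Set (Fin d))) := by
    intro i
    rw [← hI i]
    exact Pool.Agent.T9h73.NK.face_hull (VS_finite c r b) hP (Φ.isFace i)
  refine ⟨b1, hVS, I, ?_, ?_, hface⟩
  · intro i j hij k hk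
    simp only [I, Finset.mem_filter, Finset.mem_univ, true_and] at hk ⊢
    exact Φ.mono hij hk
  · intro i
    have hne : (I i).Nonempty := by
      have h1 := (Φ.isFace i).1
      rw [hface i, convexHull_nonempty_iff, image_nonempty] at h1
      simpa using h1
    have h2 := dm_simplex c hr b1 (I i) hne
    rw [← hface i] at h2
    have h3 : dm (Φ.face i) = i := Φ.dim i
    rw [h3] at h2
    exact h2.symm

theorem fto (hPERM : S_PERM) : S_FTO := by
  intro d P hO Φ Ψ
  rcases Nat.eq_zero_or_pos d with rfl | h0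
  · exact ⟨IsometryEquiv.refl _, image_id P, fun i => i.elim0⟩
  obtain ⟨c, r, b, hr, hP⟩ := hO
  have hP' : P = convexHull ℝ (VS c r b) := hP
  obtain ⟨b1, hV1, I, hIm, hIc, hIf⟩ := flagO hr hP' Φ h0
  obtain ⟨b2, hV2, J, hJm, hJc, hJf⟩ := flagO hr hP' Ψ h0
  obtain ⟨τ, hτ⟩ := hPERM d d I J hIm hJm hIc hJc
  let L : E d ≃ₗᵢ[ℝ] E d := b1.equiv b2 τ
  have hL : ∀ j, L (b1 j) = b2 (τ j) := fun j => by
    simp only [L, OrthonormalBasis.equiv_apply_basis]
  let g : E d ≃ᵃⁱ[ℝ] E d := (AffineIsometryEquiv.constVAdd ℝ (E d) (-c)).trans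
    (L.toAffineIsometryEquiv.trans (AffineIsometryEquiv.constVAdd ℝ (E d) c))
  have hg : ∀ x, g x = c + L (-c + x) := fun x => rfl
  have hgp : ∀ j, g (c + r • b1 j) = c + r • b2 (τ j) := by
    intro j
    rw [hg, neg_add_cancel_left, map_smul, hL]
  have hgm : ∀ j, g (c - r • b1 j) = c - r • b2 (τ j) := by
    intro j
    rw [hg, sub_eq_add_neg, neg_add_cancel_left, map_neg, map_smul, hL, sub_eq_add_neg]
  have himg : ∀ S : Set (E d), g '' (convexHull ℝ S) = convexHull ℝ (g '' S) := fun S =>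
    AffineMap.image_convexHull (g.toAffineEquiv.toAffineMap) S
  refine ⟨g.toIsometryEquiv, ?_, fun i => ?_⟩
  · change g '' P = P
    conv_lhs => rw [hP', ← hV1]
    rw [himg, hP', ← hV2]
    congr 1
    ext x
    constructor
    · rintro ⟨y, ⟨j, rfl | rfl⟩, rfl⟩
      · exact ⟨τ j, Or.inl (hgp j)⟩
      · exact ⟨τ j, Or.inr (hgm j)⟩
    · rintro ⟨j, rfl | rfl⟩
      · exact ⟨c + r • b1 (τ.symm j), ⟨_, Or.inl rfl⟩, by rw [hgp, Equiv.apply_symm_apply]⟩
      · exact ⟨c - r • b1 (τ.symm j), ⟨_, Or.inr rfl⟩, by rw [hgm, Equiv.apply_symm_apply]⟩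
  · change g '' Φ.face i = Ψ.face i
    rw [hIf i, hJf i, himg]
    congr 1
    rw [← hτ i, Finset.coe_image, image_image, image_image]
    exact image_congr fun j _ => hgp j

end Pool.Agent.T9h52.NK
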